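import Mathlib
import Pool.Agent.Lib.MP_de7d88_co.Defs
import Pool.Agent.Lib.MP_de7d88_co.Proof

namespace Pool.Agent.Results.MP_de7d88_co.DimensionFive

open Filter Topology Pool.Agent.Lib.MP_de7d88_co

/-- The limit `a_5` of `f_5(n) / 2 ^ n` exists, it is at most `0.163` (so less than `1 / 6`), and
`f_5(n) ≤ a_5 * 2 ^ n` for every `n`. -/
theorem result : ∃ a : ℝ, Tendsto (fun n : ℕ => (f 5 n : ℝ) / 2 ^ n) atTop (𝓝 a) ∧
    a ≤ 163 / 1000 ∧ ∀ n : ℕ, (f 5 n : ℝ) ≤ a * 2 ^ n :=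
  main

end Pool.Agent.Results.MP_de7d88_co.DimensionFive
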