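import Mathlib
import Pool.Agent.Lib.MP_de7d88_co.Defs
import Pool.Agent.Lib.MP_de7d88_co.ExpRate

namespace Pool.Agent.Results.MP_de7d88_co.ExponentialRate

open Filter Topology Pool.Agent.Lib.MP_de7d88_co

/-- For every `d` the limit `a_d` of `f_d(n) / 2 ^ n` exists and satisfies
`1 / 2 ^ d ≤ a_d ≤ (d + 1) ^ 4 / 2 ^ d`; in particular `a_d ^ (1 / d) → 1 / 2` as `d → ∞`. -/
theorem result : ∃ a : ℕ → ℝ,
    (∀ d : ℕ, Tendsto (fun n : ℕ => (f d n : ℝ) / 2 ^ n) atTop (𝓝 (a d)) ∧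
      1 / 2 ^ d ≤ a d ∧ a d ≤ ((d : ℝ) + 1) ^ 4 / 2 ^ d) ∧
    Tendsto (fun d : ℕ => (a d) ^ (1 / (d : ℝ))) atTop (𝓝 (1 / 2)) :=
  rate_main

end Pool.Agent.Results.MP_de7d88_co.ExponentialRate
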